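import Mathlib

/-!
# Extreme points of the hull of conjugate degree sequences
-/

namespace Pool.Agent.Results.MP_1867d3_co.ConjugateHull

/-- The degree of a vertex: its number of neighbours. -/
noncomputable def deg {V : Type} (G : SimpleGraph V) (v : V) : ℕ := (G.neighborSet v).ncard

/-- The conjugate degree sequence of a graph on `n` vertices, as a point of `ℝ^n`: the coordinate
with index `k` (counted from `0`) is the number of vertices of degree at least `k + 1`. -/
noncomputable def dstar {n : ℕ} (G : SimpleGraph (Fin n)) : Fin n → ℝ :=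
  fun k => (({v : Fin n | (k : ℕ) + 1 ≤ deg G v}.ncard : ℕ) : ℝ)

/-- The convex hull `C_n` of the conjugate degree sequences of all graphs on `n` vertices. -/
def hull (n : ℕ) : Set (Fin n → ℝ) :=
  convexHull ℝ {x | ∃ G : SimpleGraph (Fin n), x = dstar G}

/-- The point of `ℝ^n` whose first `r` coordinates are `1` and whose other coordinates are `0`. -/
def step (n r : ℕ) : Fin n → ℝ := fun k => if (k : ℕ) < r then 1 else 0

/-! ### Convexity -/

theorem extreme_of_functional {E : Type} [AddCommGroup E] [Module ℝ E] (S : Set E)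
    (f : E →ₗ[ℝ] ℝ) (x : E) (hx : x ∈ S) (h : ∀ y ∈ S, f y < f x ∨ y = x) :
    x ∈ (convexHull ℝ S).extremePoints ℝ := by
  have hT : Convex ℝ {y : E | f y < f x ∨ y = x} := by
    rw [convex_iff_forall_pos]
    intro y hy z hz a b ha hb hab
    simp only [Set.mem_ofPred_eq] at hy hz ⊢
    rcases hy with hy | rfl
    · left
      have hz' : f z ≤ f x := by
        rcases hz with hz | rfl
        · exact hz.le
        · exact le_rfl
      rw [map_add, map_smul, map_smul, smul_eq_mul, smul_eq_mul]
      have h1 : f x = a * f x + b * f x := by rw [← add_mul, hab, one_mul]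
      have h2 : a * f y < a * f x := mul_lt_mul_of_pos_left hy ha
      have h3 : b * f z ≤ b * f x := mul_le_mul_of_nonneg_left hz' hb.le
      linarith
    · rcases hz with hz | rfl
      · left
        rw [map_add, map_smul, map_smul, smul_eq_mul, smul_eq_mul]
        have h1 : f y = a * f y + b * f y := by rw [← add_mul, hab, one_mul]
        have h3 : b * f z < b * f y := mul_lt_mul_of_pos_left hz hb
        linarith
      · right
        rw [← add_smul, hab, one_smul]
  have hsub : convexHull ℝ S ⊆ {y : E | f y < f x ∨ y = x} := convexHull_min h hT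
  rw [mem_extremePoints]
  refine ⟨subset_convexHull ℝ S hx, ?_⟩
  intro y hy z hz hxyz
  obtain ⟨a, b, ha, hb, hab, hxe⟩ := hxyz
  have hfx : f x = a * f y + b * f z := by
    rw [← hxe, map_add, map_smul, map_smul, smul_eq_mul, smul_eq_mul]
  have h1 : f x = a * f x + b * f x := by rw [← add_mul, hab, one_mul]
  have hy' : f y ≤ f x := by
    rcases hsub hy with hy | rfl
    · exact hy.le
    · exact le_rfl
  have hz' : f z ≤ f x := by
    rcases hsub hz with hz | rfl
    · exact hz.le
    · exact le_rfl
  have h2 : a * f y ≤ a * f x := mul_le_mul_of_nonneg_left hy' ha.le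
  have h3 : b * f z ≤ b * f x := mul_le_mul_of_nonneg_left hz' hb.le
  constructor
  · rcases hsub hy with hy | hy
    · have := mul_lt_mul_of_pos_left hy ha
      linarith
    · exact hy
  · rcases hsub hz with hz | hz
    · have := mul_lt_mul_of_pos_left hz hb
      linarith
    · exact hz

theorem extreme_sub {E : Type} [AddCommGroup E] [Module ℝ E] (S T : Set E)
    (hTS : T ⊆ convexHull ℝ S) (hST : S ⊆ convexHull ℝ T) :
    (convexHull ℝ S).extremePoints ℝ ⊆ T := by
  intro x hx
  have h1 : convexHull ℝ S = convexHull ℝ T :=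
    le_antisymm (convexHull_min hST (convex_convexHull ℝ T))
      (convexHull_min hTS (convex_convexHull ℝ S))
  rw [h1] at hx
  exact extremePoints_convexHull_subset hx

/-! ### Degrees and the functionals -/

theorem deg_eq_degree {V : Type} [Fintype V] (G : SimpleGraph V) [DecidableRel G.Adj] (v : V) :
    deg G v = G.degree v := by
  rw [deg, ← SimpleGraph.card_neighborSet_eq_degree, Set.ncard_eq_toFinset_card', Set.toFinset_card]

theorem deg_lt {n : ℕ} (G : SimpleGraph (Fin n)) (v : Fin n) : deg G v < n := by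
  classical
  rw [deg_eq_degree]
  have := G.degree_lt_card_verts v
  simpa using this

theorem dstar_eq {n : ℕ} (G : SimpleGraph (Fin n)) : dstar G = ∑ v, step n (deg G v) := by
  classical
  funext k
  rw [dstar, Finset.sum_apply, Set.ncard_eq_toFinset_card']
  simp only [step, Finset.sum_ite, Finset.sum_const_zero, add_zero, Finset.sum_const, nsmul_eq_mul,
    mul_one]
  congr 2
  ext v
  simp

/-- The functional reading off the number of vertices of degree `r` (up to a constant). -/
noncomputable def L (n r : ℕ) : (Fin n → ℝ) →ₗ[ℝ] ℝ :=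
  (if h : 1 ≤ r ∧ r - 1 < n then LinearMap.proj (R := ℝ) (φ := fun _ : Fin n => ℝ) ⟨r - 1, h.2⟩
    else 0) -
  (if h : r < n then LinearMap.proj (R := ℝ) (φ := fun _ : Fin n => ℝ) ⟨r, h⟩ else 0)

theorem L_step {n r d : ℕ} (hr : r < n) (hd : d < n) :
    L n r (step n d) = (if d = r then 1 else 0) - (if r = 0 then 1 else 0) := by
  rw [L, dif_pos hr]
  rcases Nat.eq_zero_or_pos r with rfl | hr0
  · rw [dif_neg (by omega)]
    rcases Nat.eq_zero_or_pos d with rfl | hd0
    · simp [step]
    · have : d ≠ 0 := by omega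
      simp [step, hd0, this]
  · rw [dif_pos ⟨hr0, by omega⟩]
    have h0 : r ≠ 0 := by omega
    simp only [LinearMap.sub_apply, LinearMap.proj_apply, step, h0, if_false, sub_zero]
    rcases lt_trichotomy d r with h | h | h
    · rw [if_neg (by omega), if_neg (by omega), if_neg (by omega)]
      simp
    · rw [if_pos (by omega), if_neg (by omega), if_pos (by omega)]
      simp
    · rw [if_pos (by omega), if_pos (by omega), if_neg (by omega)]
      simp

/-- The number of vertices of degree `r`. -/
noncomputable def cnt {n : ℕ} (G : SimpleGraph (Fin n)) (r : ℕ) : ℕ := by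
  classical exact (Finset.univ.filter fun v => deg G v = r).card

theorem L_dstar {n r : ℕ} (hr : r < n) (G : SimpleGraph (Fin n)) :
    L n r (dstar G) = cnt G r - (if r = 0 then (n : ℝ) else 0) := by
  classical
  rw [dstar_eq, map_sum]
  rw [Finset.sum_congr rfl fun v _ => L_step hr (deg_lt G v)]
  rw [Finset.sum_sub_distrib, Finset.sum_ite, Finset.sum_const_zero, add_zero, Finset.sum_const,
    nsmul_eq_mul, mul_one]
  congr 1
  split_ifs <;> simp

theorem cnt_le {n : ℕ} (G : SimpleGraph (Fin n)) (r : ℕ) : cnt G r ≤ n := by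
  classical
  exact (Finset.card_le_univ _).trans (by simp)

theorem cnt_eq {n : ℕ} (G : SimpleGraph (Fin n)) (r : ℕ) (h : cnt G r = n) (v : Fin n) :
    deg G v = r := by
  classical
  have h1 : (Finset.univ.filter fun v => deg G v = r) = Finset.univ :=
    Finset.eq_univ_of_card _ (by simpa [cnt] using h)
  have h2 : v ∈ Finset.univ.filter fun v => deg G v = r := by rw [h1]; exact Finset.mem_univ v
  simpa using h2

theorem cnt_add_le {n : ℕ} (G : SimpleGraph (Fin n)) {r s : ℕ} (hrs : r ≠ s) :
    cnt G r + cnt G s ≤ n := by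
  classical
  have hd : Disjoint (Finset.univ.filter fun v => deg G v = r)
      (Finset.univ.filter fun v => deg G v = s) := by
    rw [Finset.disjoint_filter]
    intro v _ h1 h2
    exact hrs (h1.symm.trans h2)
  have := Finset.card_union_of_disjoint hd
  have h2 := Finset.card_le_univ ((Finset.univ.filter fun v => deg G v = r) ∪
      (Finset.univ.filter fun v => deg G v = s))
  rw [this] at h2
  simpa [cnt] using h2

theorem even_odd_count {n : ℕ} (G : SimpleGraph (Fin n)) [DecidablePred fun v => Odd (deg G v)] :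
    Even (Finset.univ.filter fun v => Odd (deg G v)).card := by
  classical
  have := G.even_card_odd_degree_vertices
  convert this using 2
  ext v
  simp [deg_eq_degree]

theorem odd_count_lt {n : ℕ} (hn : Odd n) (G : SimpleGraph (Fin n))
    [DecidablePred fun v => Odd (deg G v)] :
    (Finset.univ.filter fun v => Odd (deg G v)).card ≤ n - 1 := by
  classical
  have h1 := even_odd_count G
  have h2 : (Finset.univ.filter fun v => Odd (deg G v)).card ≤ n :=
    (Finset.card_le_univ _).trans (by simp)
  rcases hn with ⟨m, rfl⟩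
  rcases h1 with ⟨c, hc⟩
  omega

theorem cnt_odd_le {n : ℕ} (hn : Odd n) (G : SimpleGraph (Fin n)) {r : ℕ} (hr : Odd r) :
    cnt G r ≤ n - 1 := by
  classical
  refine le_trans ?_ (odd_count_lt hn G)
  refine Finset.card_le_card ?_
  intro v hv
  simp only [Finset.mem_filter, Finset.mem_univ, true_and] at hv ⊢
  rw [hv]
  exact hr

/-- The shape of a graph with `n - 1` vertices of degree `r` and one of degree `s ≠ r`. -/
theorem cnt_shape {n : ℕ} (G : SimpleGraph (Fin n)) {r s : ℕ} (hrs : r ≠ s)
    (h1 : cnt G r = n - 1) (h2 : cnt G s = 1) :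
    ∃ w, deg G w = s ∧ ∀ v, v ≠ w → deg G v = r := by
  classical
  rw [cnt, Finset.card_eq_one] at h2
  obtain ⟨w, hw⟩ := h2
  have hws : deg G w = s := by
    have : w ∈ Finset.univ.filter fun v => deg G v = s := by rw [hw]; simp
    simpa using this
  refine ⟨w, hws, ?_⟩
  have h3 : (Finset.univ.filter fun v => deg G v = r) = Finset.univ.erase w := by
    refine Finset.eq_of_subset_of_card_le ?_ ?_
    · intro v hv
      simp only [Finset.mem_filter, Finset.mem_univ, true_and] at hv
      simp only [Finset.mem_erase, Finset.mem_univ, and_true]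
      rintro rfl
      exact hrs (hv.symm.trans hws)
    · rw [Finset.card_erase_of_mem (Finset.mem_univ w), Finset.card_univ, Fintype.card_fin]
      exact h1.ge
  intro v hv
  have : v ∈ Finset.univ.filter fun v => deg G v = r := by
    rw [h3]
    simp [hv]
  simpa using this

theorem dstar_regular {n : ℕ} (G : SimpleGraph (Fin n)) {r : ℕ} (h : ∀ v, deg G v = r) :
    dstar G = (n : ℝ) • step n r := by
  rw [dstar_eq, Finset.sum_congr rfl fun v _ => by rw [h v], Finset.sum_const, Finset.card_univ,
    Fintype.card_fin, Nat.cast_smul_eq_nsmul]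

theorem dstar_near {n : ℕ} (G : SimpleGraph (Fin n)) {r s : ℕ} {w : Fin n} (hw : deg G w = s)
    (h : ∀ v, v ≠ w → deg G v = r) :
    dstar G = ((n : ℝ) - 1) • step n r + step n s := by
  classical
  rw [dstar_eq, ← Finset.sum_erase_add _ _ (Finset.mem_univ w), hw]
  congr 1
  rw [Finset.sum_congr rfl fun v hv => by rw [h v (Finset.ne_of_mem_erase hv)], Finset.sum_const,
    Finset.card_erase_of_mem (Finset.mem_univ w), Finset.card_univ, Fintype.card_fin]
  have hn : 1 ≤ n := by
    have := w.2
    omega
  rw [← Nat.cast_smul_eq_nsmul ℝ, Nat.cast_sub hn, Nat.cast_one]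

/-! ### The points are extreme -/

theorem extreme_regular {n : ℕ} (G : SimpleGraph (Fin n)) (hn : 1 ≤ n) {r : ℕ}
    (h : ∀ v, deg G v = r) : dstar G ∈ (hull n).extremePoints ℝ := by
  classical
  have hr : r < n := by
    rw [← h ⟨0, hn⟩]
    exact deg_lt G _
  refine extreme_of_functional _ (L n r) _ ⟨G, rfl⟩ ?_
  rintro _ ⟨G', rfl⟩
  have h1 : cnt G r = n := by
    rw [cnt, Finset.filter_true_of_mem (fun v _ => h v)]
    simp
  rw [L_dstar hr, L_dstar hr, h1]
  rcases (cnt_le G' r).lt_or_eq with h2 | h2
  · left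
    have : (cnt G' r : ℝ) < n := by exact_mod_cast h2
    linarith
  · right
    rw [dstar_regular G h, dstar_regular G' (cnt_eq G' r h2)]

theorem extreme_near {n : ℕ} (hn : Odd n) (G : SimpleGraph (Fin n)) {r s : ℕ} (hr : Odd r)
    (hs : Even s) {w : Fin n} (hw : deg G w = s) (h : ∀ v, v ≠ w → deg G v = r)
    (hrn : r < n) : dstar G ∈ (hull n).extremePoints ℝ := by
  classical
  have hn1 : 1 ≤ n := by
    have := w.2
    omega
  have hsn : s < n := by
    rw [← hw]
    exact deg_lt G _
  have hrs : r ≠ s := by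
    rintro rfl
    exact (Nat.not_even_iff_odd.2 hr) hs
  refine extreme_of_functional _ ((2 : ℝ) • L n r + L n s) _ ⟨G, rfl⟩ ?_
  rintro _ ⟨G', rfl⟩
  have hc : ∀ H : SimpleGraph (Fin n), ((2 : ℝ) • L n r + L n s) (dstar H) =
      (2 * cnt H r + cnt H s : ℕ) - (2 * (if r = 0 then (n : ℝ) else 0) +
        (if s = 0 then (n : ℝ) else 0)) := by
    intro H
    rw [LinearMap.add_apply, LinearMap.smul_apply, L_dstar hrn, L_dstar hsn, smul_eq_mul]
    push_cast
    ring
  rw [hc, hc]
  have h1 : cnt G r = n - 1 := by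
    rw [cnt]
    have : (Finset.univ.filter fun v => deg G v = r) = Finset.univ.erase w := by
      ext v
      simp only [Finset.mem_filter, Finset.mem_univ, true_and, Finset.mem_erase, and_true]
      constructor
      · rintro hv rfl
        exact hrs (hv.symm.trans hw)
      · exact h v
    rw [this, Finset.card_erase_of_mem (Finset.mem_univ w)]
    simp
  have h2 : cnt G s = 1 := by
    rw [cnt, Finset.card_eq_one]
    refine ⟨w, ?_⟩
    ext v
    simp only [Finset.mem_filter, Finset.mem_univ, true_and, Finset.mem_singleton]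
    constructor
    · intro hv
      by_contra hne
      exact hrs ((h v hne).symm.trans hv)
    · rintro rfl
      exact hw
  have h3 := cnt_odd_le hn G' hr
  have h4 := cnt_add_le G' hrs
  by_cases h5 : cnt G' r = n - 1 ∧ cnt G' s = 1
  · right
    obtain ⟨w', hw', h'⟩ := cnt_shape G' hrs h5.1 h5.2
    rw [dstar_near G hw h, dstar_near G' hw' h']
  · left
    have h6 : 2 * cnt G' r + cnt G' s < 2 * cnt G r + cnt G s := by omega
    have h7 : ((2 * cnt G' r + cnt G' s : ℕ) : ℝ) < ((2 * cnt G r + cnt G s : ℕ) : ℝ) := by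
      exact_mod_cast h6
    linarith

/-! ### Recognising the graphs -/

theorem regular_of_dstar {n : ℕ} (G : SimpleGraph (Fin n)) {r : ℕ} (hr : r < n)
    (h : dstar G = (n : ℝ) • step n r) (v : Fin n) : deg G v = r := by
  refine cnt_eq G r ?_ v
  have h1 := L_dstar hr G
  rw [h, map_smul, L_step hr hr, if_pos rfl, smul_eq_mul] at h1
  have h2 : (cnt G r : ℝ) = n := by
    split_ifs at h1 with h0 <;> linarith
  exact_mod_cast h2

theorem near_of_dstar {n : ℕ} (G : SimpleGraph (Fin n)) {r s : ℕ} (hr : r < n) (hs : s < n)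
    (hrs : r ≠ s) (h : dstar G = ((n : ℝ) - 1) • step n r + step n s) :
    ∃ w, deg G w = s ∧ ∀ v, v ≠ w → deg G v = r := by
  have hn1 : 1 ≤ n := by omega
  have h1 := L_dstar hr G
  have h2 := L_dstar hs G
  rw [h, map_add, map_smul, L_step hr hr, L_step hr hs, if_pos rfl, if_neg (Ne.symm hrs),
    smul_eq_mul] at h1
  rw [h, map_add, map_smul, L_step hs hr, L_step hs hs, if_pos rfl, if_neg hrs,
    smul_eq_mul] at h2
  refine cnt_shape G hrs ?_ ?_
  · have h3 : (cnt G r : ℝ) = n - 1 := by
      split_ifs at h1 with h0 <;> linarith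
    have h4 : (cnt G r : ℝ) = ((n - 1 : ℕ) : ℝ) := by
      rw [Nat.cast_sub hn1, Nat.cast_one]
      exact h3
    exact_mod_cast h4
  · have h3 : (cnt G s : ℝ) = 1 := by
      split_ifs at h2 with h0 <;> linarith
    exact_mod_cast h3

/-! ### The hull of the special points contains everything -/

/-- The special points for even `n`. -/
def TE (n : ℕ) : Set (Fin n → ℝ) := {x | ∃ r, r < n ∧ x = (n : ℝ) • step n r}

/-- The special points for odd `n`. -/
def TO (n : ℕ) : Set (Fin n → ℝ) := {x | (∃ r, r < n ∧ Even r ∧ x = (n : ℝ) • step n r) ∨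
  ∃ r s, r < n ∧ s < n ∧ Odd r ∧ Even s ∧ x = ((n : ℝ) - 1) • step n r + step n s}

theorem mean_mem {E ι : Type} [AddCommGroup E] [Module ℝ E] {C : Set E} (hC : Convex ℝ C)
    (F : Finset ι) (hF : F.Nonempty) (z : ι → E) (hz : ∀ i ∈ F, z i ∈ C) :
    ∑ i ∈ F, (1 / (F.card : ℝ)) • z i ∈ C := by
  refine hC.sum_mem (fun i _ => by positivity) ?_ hz
  rw [Finset.sum_const, nsmul_eq_mul]
  have : (F.card : ℝ) ≠ 0 := by
    have := hF.card_pos
    positivity
  field_simp

theorem mem_even {n : ℕ} (hn : 1 ≤ n) (G : SimpleGraph (Fin n)) : dstar G ∈ convexHull ℝ (TE n) := by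
  classical
  have h := mean_mem (convex_convexHull ℝ (TE n)) (Finset.univ : Finset (Fin n))
    ⟨⟨0, hn⟩, Finset.mem_univ _⟩ (fun v => (n : ℝ) • step n (deg G v))
    (fun v _ => subset_convexHull ℝ _ ⟨_, deg_lt G v, rfl⟩)
  have h2 : dstar G = ∑ i ∈ (Finset.univ : Finset (Fin n)),
      (1 / ((Finset.univ : Finset (Fin n)).card : ℝ)) • ((n : ℝ) • step n (deg G i)) := by
    rw [dstar_eq]
    refine Finset.sum_congr rfl fun v _ => ?_
    rw [smul_smul, Finset.card_univ, Fintype.card_fin]
    have : (n : ℝ) ≠ 0 := by positivity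
    rw [one_div, inv_mul_cancel₀ this, one_smul]
  rw [h2]
  exact h

theorem mem_odd {n : ℕ} (hn : Odd n) (G : SimpleGraph (Fin n)) :
    dstar G ∈ convexHull ℝ (TO n) := by
  classical
  set O : Finset (Fin n) := Finset.univ.filter fun v => Odd (deg G v) with hO
  set E : Finset (Fin n) := Finset.univ.filter fun v => ¬ Odd (deg G v) with hE
  have hm : O.card ≤ n - 1 := odd_count_lt hn G
  have hn1 : 1 ≤ n := by
    rcases hn with ⟨m, rfl⟩
    omega
  have hOE : O.card + E.card = n := by
    have := Finset.card_filter_add_card_filter_not (s := (Finset.univ : Finset (Fin n)))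
      (fun v => Odd (deg G v))
    rw [Finset.card_univ, Fintype.card_fin] at this
    exact this
  have hEc : (E.card : ℝ) = n - O.card := by
    have : (n : ℝ) = O.card + E.card := by exact_mod_cast hOE.symm
    linarith
  have hE0 : 0 < E.card := by omega
  have hQ : ∀ u ∈ E, (∑ v ∈ O, step n (deg G v)) + ((n : ℝ) - O.card) • step n (deg G u) ∈
      convexHull ℝ (TO n) := by
    intro u hu
    have hu' : Even (deg G u) := by
      simp only [hE, Finset.mem_filter, Finset.mem_univ, true_and, Nat.not_odd_iff_even] at hu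
      exact hu
    have hB : (n : ℝ) • step n (deg G u) ∈ convexHull ℝ (TO n) :=
      subset_convexHull ℝ _ (Or.inl ⟨_, deg_lt G u, hu', rfl⟩)
    rcases O.eq_empty_or_nonempty with h0 | h0
    · rw [h0]
      simpa using hB
    · have hA := mean_mem (convex_convexHull ℝ (TO n)) O h0
        (fun v => ((n : ℝ) - 1) • step n (deg G v) + step n (deg G u)) (by
          intro v hv
          simp only [hO, Finset.mem_filter, Finset.mem_univ, true_and] at hv
          exact subset_convexHull ℝ _ (Or.inr ⟨_, _, deg_lt G v, deg_lt G u, hv, hu', rfl⟩))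
      have hc0 : 0 < O.card := h0.card_pos
      have hc1 : (0 : ℝ) < O.card := by exact_mod_cast hc0
      have hn2 : 2 ≤ n := by omega
      have hn3 : (0 : ℝ) < (n : ℝ) - 1 := by
        have : (2 : ℝ) ≤ n := by exact_mod_cast hn2
        linarith
      have hle : (O.card : ℝ) / ((n : ℝ) - 1) ≤ 1 := by
        rw [div_le_one hn3]
        have : ((O.card : ℕ) : ℝ) ≤ ((n - 1 : ℕ) : ℝ) := by exact_mod_cast hm
        rw [Nat.cast_sub hn1, Nat.cast_one] at this
        exact this
      have hcomb := (convex_convexHull ℝ (TO n)) hA hB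
        (show 0 ≤ (O.card : ℝ) / ((n : ℝ) - 1) by positivity)
        (show 0 ≤ 1 - (O.card : ℝ) / ((n : ℝ) - 1) by linarith) (by ring)
      convert hcomb using 1
      funext k
      simp only [Pi.add_apply, Pi.smul_apply, Finset.sum_apply, smul_eq_mul]
      rw [← Finset.mul_sum, Finset.sum_add_distrib, ← Finset.mul_sum, Finset.sum_const,
        nsmul_eq_mul]
      field_simp
      ring
  have hmean := mean_mem (convex_convexHull ℝ (TO n)) E (Finset.card_pos.1 hE0) _ hQ
  convert hmean using 1
  rw [dstar_eq]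
  funext k
  simp only [Pi.add_apply, Pi.smul_apply, Finset.sum_apply, smul_eq_mul]
  rw [← Finset.mul_sum, Finset.sum_add_distrib, ← Finset.mul_sum, Finset.sum_const, nsmul_eq_mul,
    ← hEc]
  have h1 : (E.card : ℝ) ≠ 0 := by positivity
  have h2 : ∑ v, step n (deg G v) k = ∑ v ∈ O, step n (deg G v) k + ∑ v ∈ E, step n (deg G v) k :=
    (Finset.sum_filter_add_sum_filter_not Finset.univ (fun v => Odd (deg G v)) _).symm
  rw [h2]
  field_simp

/-! ### Existence of regular and nearly regular graphs -/

theorem transport {V : Type} [Fintype V] {n : ℕ} (hV : Fintype.card V = n) (G : SimpleGraph V) :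
    ∃ (G' : SimpleGraph (Fin n)) (e : Fin n ≃ V), ∀ v, deg G' v = deg G (e v) := by
  let e : Fin n ≃ V := (Fintype.equivFinOfCardEq hV).symm
  refine ⟨G.comap e, e, fun v => ?_⟩
  have : (G.comap e).neighborSet v = e ⁻¹' (G.neighborSet (e v)) := by
    ext w
    simp
  rw [deg, deg, this, Set.ncard_preimage_of_injective_subset_range e.injective
    (by rw [e.surjective.range_eq]; exact Set.subset_univ _)]

/-- A circulant bipartite graph on `ZMod m × Bool`. -/
def B (m : ℕ) (D : Finset (ZMod m)) : SimpleGraph (ZMod m × Bool) where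
  Adj x y := (x.2 = false ∧ y.2 = true ∧ y.1 - x.1 ∈ D) ∨ (x.2 = true ∧ y.2 = false ∧ x.1 - y.1 ∈ D)
  symm := ⟨by
    intro x y h
    rcases h with h | h
    · exact Or.inr ⟨h.2.1, h.1, h.2.2⟩
    · exact Or.inl ⟨h.2.1, h.1, h.2.2⟩⟩
  loopless := ⟨by
    intro x h
    rcases h with h | h
    · rw [h.1] at h
      exact absurd h.2.1 (by simp)
    · rw [h.1] at h
      exact absurd h.2.1 (by simp)⟩

theorem deg_B (m : ℕ) (D : Finset (ZMod m)) (x : ZMod m × Bool) : deg (B m D) x = D.card := by
  obtain ⟨i, b⟩ := x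
  cases b
  · have : (B m D).neighborSet (i, false) = (fun d => (i + d, true)) '' (D : Set (ZMod m)) := by
      ext ⟨j, c⟩
      simp only [SimpleGraph.mem_neighborSet, B, Set.mem_image, Finset.mem_coe, Prod.mk.injEq]
      constructor
      · rintro (h | h)
        · exact ⟨j - i, h.2.2, by ring, h.2.1.symm⟩
        · exact absurd h.1 (by simp)
      · rintro ⟨d, hd, rfl, rfl⟩
        left
        simpa using hd
    rw [deg, this, Set.ncard_image_of_injective, Set.ncard_coe_finset]
    intro a b h
    simpa using h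
  · have : (B m D).neighborSet (i, true) = (fun d => (i - d, false)) '' (D : Set (ZMod m)) := by
      ext ⟨j, c⟩
      simp only [SimpleGraph.mem_neighborSet, B, Set.mem_image, Finset.mem_coe, Prod.mk.injEq]
      constructor
      · rintro (h | h)
        · exact absurd h.1 (by simp)
        · exact ⟨i - j, h.2.2, by ring, h.2.1.symm⟩
      · rintro ⟨d, hd, rfl, rfl⟩
        right
        simpa using hd
    rw [deg, this, Set.ncard_image_of_injective, Set.ncard_coe_finset]
    intro a b h
    simpa using h

theorem exists_base (m : ℕ) [NeZero m] (r : ℕ) (hr : r < 2 * m) :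
    ∃ H : SimpleGraph (ZMod m × Bool), (∀ x, deg H x = r) ∧
      (1 ≤ r → ∀ i b, H.Adj (i, b) (i, !b)) := by
  classical
  have hcard : (Finset.univ : Finset (ZMod m)).card = m := by
    rw [Finset.card_univ, ZMod.card]
  have hm : 1 ≤ m := NeZero.one_le
  rcases le_or_gt r m with h | h
  · rcases Nat.eq_zero_or_pos r with rfl | hr0
    · refine ⟨B m ∅, fun x => ?_, fun h => absurd h (by omega)⟩
      rw [deg_B, Finset.card_empty]
    · obtain ⟨D, hD1, -, hD2⟩ := Finset.exists_subsuperset_card_eq
        (s := ({0} : Finset (ZMod m))) (t := Finset.univ) (n := r) (Finset.subset_univ _)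
        (by rw [Finset.card_singleton]; exact hr0) (by rw [hcard]; exact h)
      refine ⟨B m D, fun x => by rw [deg_B, hD2], fun _ i b => ?_⟩
      have h0 : (0 : ZMod m) ∈ D := hD1 (by simp)
      cases b
      · left
        simpa using h0
      · right
        simpa using h0
  · obtain ⟨D, -, hD1, hD2⟩ := Finset.exists_subsuperset_card_eq
      (s := (∅ : Finset (ZMod m))) (t := Finset.univ.erase 0) (n := 2 * m - 1 - r)
      (Finset.empty_subset _) (by simp)
      (by rw [Finset.card_erase_of_mem (Finset.mem_univ _), hcard]; omega)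
    have h0 : (0 : ZMod m) ∉ D := fun h => by simpa using hD1 h
    refine ⟨(B m D)ᶜ, fun x => ?_, fun _ i b => ?_⟩
    · rw [deg_eq_degree, SimpleGraph.degree_compl, ← deg_eq_degree, deg_B, hD2]
      simp only [Fintype.card_prod, ZMod.card, Fintype.card_bool]
      omega
    · rw [SimpleGraph.compl_adj]
      refine ⟨by cases b <;> simp, ?_⟩
      rintro (h | h)
      · exact h0 (by simpa using h.2.2)
      · exact h0 (by simpa using h.2.2)

/-- Join a new vertex to the ends of some edges of a perfect matching and delete these edges. -/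
def J (m : ℕ) (H : SimpleGraph (ZMod m × Bool)) (K : Finset (ZMod m)) :
    SimpleGraph (Option (ZMod m × Bool)) where
  Adj a b := (∃ x y, a = some x ∧ b = some y ∧ H.Adj x y ∧ ¬ (x.1 = y.1 ∧ x.1 ∈ K)) ∨
    (∃ x, a = some x ∧ b = none ∧ x.1 ∈ K) ∨ (∃ x, a = none ∧ b = some x ∧ x.1 ∈ K)
  symm := ⟨by
    rintro a b (⟨x, y, rfl, rfl, h1, h2⟩ | ⟨x, rfl, rfl, h⟩ | ⟨x, rfl, rfl, h⟩)
    · refine Or.inl ⟨y, x, rfl, rfl, h1.symm, ?_⟩
      rintro ⟨h3, h4⟩
      exact h2 ⟨h3.symm, by rw [← h3]; exact h4⟩
    · exact Or.inr (Or.inr ⟨x, rfl, rfl, h⟩)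
    · exact Or.inr (Or.inl ⟨x, rfl, rfl, h⟩)⟩
  loopless := ⟨by
    rintro a (⟨x, y, rfl, h, h1, h2⟩ | ⟨x, rfl, h, -⟩ | ⟨x, rfl, h, -⟩)
    · rw [Option.some.injEq] at h
      subst h
      exact H.irrefl h1
    · simp at h
    · simp at h⟩

theorem deg_J_none (m : ℕ) [NeZero m] (H : SimpleGraph (ZMod m × Bool)) (K : Finset (ZMod m)) :
    deg (J m H K) none = 2 * K.card := by
  have : (J m H K).neighborSet none =
      some '' (((K ×ˢ (Finset.univ : Finset Bool) : Finset (ZMod m × Bool))) :
        Set (ZMod m × Bool)) := by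
    ext a
    simp only [SimpleGraph.mem_neighborSet, J, Set.mem_image, Finset.mem_coe, Finset.mem_product,
      Finset.mem_univ, and_true]
    constructor
    · rintro (⟨x, y, h, -⟩ | ⟨x, h, -⟩ | ⟨x, -, rfl, h⟩)
      · simp at h
      · simp at h
      · exact ⟨x, h, rfl⟩
    · rintro ⟨x, h, rfl⟩
      exact Or.inr (Or.inr ⟨x, trivial, rfl, h⟩)
  rw [deg, this, Set.ncard_image_of_injective _ (Option.some_injective _), Set.ncard_coe_finset,
    Finset.card_product, Finset.card_univ, Fintype.card_bool, mul_comm]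

theorem deg_J_some (m : ℕ) [NeZero m] (H : SimpleGraph (ZMod m × Bool)) (K : Finset (ZMod m))
    (x : ZMod m × Bool) (hx : x.1 ∈ K → H.Adj x (x.1, !x.2)) :
    deg (J m H K) (some x) = deg H x := by
  classical
  by_cases hK : x.1 ∈ K
  · have h1 : (J m H K).neighborSet (some x) =
        insert none (some '' (H.neighborSet x \ {(x.1, !x.2)})) := by
      ext a
      simp only [SimpleGraph.mem_neighborSet, J, Set.mem_insert_iff, Set.mem_image, Set.mem_sdiff,
        Set.mem_singleton_iff]
      constructor
      · rintro (⟨x', y, h, rfl, h1, h2⟩ | ⟨x', h, rfl, -⟩ | ⟨x', h, -⟩)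
        · rw [Option.some.injEq] at h
          subst h
          right
          refine ⟨y, ⟨h1, ?_⟩, rfl⟩
          rintro rfl
          exact h2 (by simpa using hK)
        · exact Or.inl rfl
        · simp at h
      · rintro (rfl | ⟨y, ⟨h1, h2⟩, rfl⟩)
        · exact Or.inr (Or.inl ⟨x, rfl, rfl, hK⟩)
        · refine Or.inl ⟨x, y, rfl, rfl, h1, ?_⟩
          rintro ⟨h3, -⟩
          have h4 : y ≠ x := h1.ne'
          obtain ⟨i, b⟩ := x
          obtain ⟨j, c⟩ := y
          simp only at h3
          subst h3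
          cases b <;> cases c <;> simp_all
    have h2 : (x.1, !x.2) ∈ H.neighborSet x := hx hK
    have hfin : (H.neighborSet x).Finite := Set.toFinite _
    rw [deg, h1, Set.ncard_insert_of_notMem (by simp) (Set.toFinite _),
      Set.ncard_image_of_injective _ (Option.some_injective _),
      Set.ncard_sdiff_singleton_add_one h2 hfin, deg]
  · have h1 : (J m H K).neighborSet (some x) = some '' (H.neighborSet x) := by
      ext a
      simp only [SimpleGraph.mem_neighborSet, J, Set.mem_image]
      constructor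
      · rintro (⟨x', y, h, rfl, h1, h2⟩ | ⟨x', h, rfl, h'⟩ | ⟨x', h, -⟩)
        · rw [Option.some.injEq] at h
          subst h
          exact ⟨y, h1, rfl⟩
        · rw [Option.some.injEq] at h
          subst h
          exact absurd h' hK
        · simp at h
      · rintro ⟨y, h1, rfl⟩
        exact Or.inl ⟨x, y, rfl, rfl, h1, fun h => hK h.2⟩
    rw [deg, h1, Set.ncard_image_of_injective _ (Option.some_injective _), deg]

theorem exists_even (m : ℕ) (hm : 1 ≤ m) (r : ℕ) (hr : r < 2 * m) :
    ∃ G : SimpleGraph (Fin (2 * m)), ∀ v, deg G v = r := by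
  have : NeZero m := ⟨by omega⟩
  obtain ⟨H, hH, -⟩ := exists_base m r hr
  obtain ⟨G, e, hG⟩ := transport (n := 2 * m)
    (by rw [Fintype.card_prod, ZMod.card, Fintype.card_bool, mul_comm]) H
  exact ⟨G, fun v => by rw [hG, hH]⟩

theorem exists_near (m : ℕ) (hm : 1 ≤ m) (r s : ℕ) (hr : r < 2 * m) (hs : s < 2 * m + 1)
    (hse : Even s) (h : 1 ≤ r ∨ s = 0) :
    ∃ (G : SimpleGraph (Fin (2 * m + 1))) (w : Fin (2 * m + 1)), deg G w = s ∧
      ∀ v, v ≠ w → deg G v = r := by
  classical
  have : NeZero m := ⟨by omega⟩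
  obtain ⟨H, hH, hM⟩ := exists_base m r hr
  obtain ⟨c, hc⟩ := hse
  obtain ⟨K, -, -, hK⟩ := Finset.exists_subsuperset_card_eq
      (s := (∅ : Finset (ZMod m))) (t := Finset.univ) (n := c)
      (Finset.empty_subset _) (by simp) (by rw [Finset.card_univ, ZMod.card]; omega)
  obtain ⟨G, e, hG⟩ := transport (n := 2 * m + 1)
    (by rw [Fintype.card_option, Fintype.card_prod, ZMod.card, Fintype.card_bool, mul_comm])
    (J m H K)
  refine ⟨G, e.symm none, ?_, fun v hv => ?_⟩
  · rw [hG, Equiv.apply_symm_apply, deg_J_none, hK, hc]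
    ring
  · rw [hG]
    obtain ⟨x, hx⟩ : ∃ x, e v = some x := by
      rcases h1 : e v with _ | x
      · exact absurd (by rw [← h1, Equiv.symm_apply_apply]) hv
      · exact ⟨x, rfl⟩
    rw [hx, deg_J_some, hH]
    intro hxK
    have hr1 : 1 ≤ r := by
      rcases h with h | h
      · exact h
      · exfalso
        have : K.card = 0 := by omega
        rw [Finset.card_eq_zero] at this
        rw [this] at hxK
        simp at hxK
    exact hM hr1 x.1 x.2

theorem exists_top (n : ℕ) : ∃ G : SimpleGraph (Fin n), ∀ v, deg G v = n - 1 := by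
  classical
  refine ⟨⊤, fun v => ?_⟩
  rw [deg_eq_degree]
  simp

/-! ### The main theorem -/

theorem extremePoints_even {n : ℕ} (hn : 1 ≤ n) (he : Even n) :
    (hull n).extremePoints ℝ = TE n := by
  obtain ⟨m, hm⟩ := he
  obtain rfl : n = 2 * m := by omega
  have hT : TE (2 * m) ⊆ (hull (2 * m)).extremePoints ℝ := by
    rintro x ⟨r, hr, rfl⟩
    obtain ⟨G, hG⟩ := exists_even m (by omega) r hr
    rw [← dstar_regular G hG]
    exact extreme_regular G hn hG
  refine le_antisymm ?_ hT
  refine extreme_sub _ _ (fun x hx => (hT hx).1) ?_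
  rintro x ⟨G, rfl⟩
  exact mem_even hn G

theorem extremePoints_odd {n : ℕ} (ho : Odd n) : (hull n).extremePoints ℝ = TO n := by
  have ho' := ho
  obtain ⟨m, rfl⟩ := ho
  have hT : TO (2 * m + 1) ⊆ (hull (2 * m + 1)).extremePoints ℝ := by
    rintro x (⟨r, hr, hre, rfl⟩ | ⟨r, s, hr, hs, hro, hse, rfl⟩)
    · obtain ⟨G, hG⟩ : ∃ G : SimpleGraph (Fin (2 * m + 1)), ∀ v, deg G v = r := by
        rcases Nat.lt_or_ge r (2 * m) with h | h
        · rcases Nat.eq_zero_or_pos r with rfl | hr0
          · obtain ⟨G, w, h1, h2⟩ := exists_near m (by omega) 0 0 (by omega) (by omega) hre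
              (Or.inr rfl)
            refine ⟨G, fun v => ?_⟩
            by_cases hv : v = w
            · rw [hv, h1]
            · exact h2 v hv
          · obtain ⟨G, w, h1, h2⟩ := exists_near m (by omega) r r h (by omega) hre (Or.inl hr0)
            refine ⟨G, fun v => ?_⟩
            by_cases hv : v = w
            · rw [hv, h1]
            · exact h2 v hv
        · obtain ⟨G, hG⟩ := exists_top (2 * m + 1)
          exact ⟨G, fun v => by rw [hG]; omega⟩
      rw [← dstar_regular G hG]
      exact extreme_regular G (by omega) hG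
    · have hr1 : 1 ≤ r := hro.pos
      have hr2 : r < 2 * m := by
        rcases hro with ⟨c, rfl⟩
        omega
      obtain ⟨G, w, h1, h2⟩ := exists_near m (by omega) r s hr2 hs hse (Or.inl hr1)
      have h3 := dstar_near G h1 h2
      rw [← h3]
      exact extreme_near ho' G hro hse h1 h2 hr
  refine le_antisymm ?_ hT
  refine extreme_sub _ _ (fun x hx => (hT hx).1) ?_
  rintro x ⟨G, rfl⟩
  exact mem_odd ho' G

/-- The extreme points of the convex hull of the conjugate degree sequences of graphs on `n`
vertices, and the graphs attaining them. -/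
theorem result (n : ℕ) (hn : 1 ≤ n) :
    (Even n →
      (hull n).extremePoints ℝ = {x | ∃ r, r < n ∧ x = (n : ℝ) • step n r} ∧
      ∀ G : SimpleGraph (Fin n),
        dstar G ∈ (hull n).extremePoints ℝ ↔ ∃ r, ∀ v, deg G v = r) ∧
    (Odd n →
      (hull n).extremePoints ℝ = {x | (∃ r, r < n ∧ Even r ∧ x = (n : ℝ) • step n r) ∨
        ∃ r s, r < n ∧ s < n ∧ Odd r ∧ Even s ∧ x = ((n : ℝ) - 1) • step n r + step n s} ∧
      ∀ G : SimpleGraph (Fin n),
        dstar G ∈ (hull n).extremePoints ℝ ↔ (∃ r, ∀ v, deg G v = r) ∨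
          ∃ r s w, Odd r ∧ Even s ∧ deg G w = s ∧ ∀ v, v ≠ w → deg G v = r) := by
  refine ⟨fun he => ⟨extremePoints_even hn he, fun G => ⟨fun h => ?_, ?_⟩⟩,
    fun ho => ⟨extremePoints_odd ho, fun G => ⟨fun h => ?_, ?_⟩⟩⟩
  · rw [extremePoints_even hn he] at h
    obtain ⟨r, hr, hG⟩ := h
    exact ⟨r, regular_of_dstar G hr hG⟩
  · rintro ⟨r, hr⟩
    exact extreme_regular G hn hr
  · rw [extremePoints_odd ho] at h
    rcases h with ⟨r, hr, hre, hG⟩ | ⟨r, s, hr, hs, hro, hse, hG⟩
    · exact Or.inl ⟨r, regular_of_dstar G hr hG⟩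
    · right
      obtain ⟨w, h1, h2⟩ := near_of_dstar G hr hs
        (by rintro rfl; exact (Nat.not_even_iff_odd.2 hro) hse) hG
      exact ⟨r, s, w, hro, hse, h1, h2⟩
  · rintro (⟨r, hr⟩ | ⟨r, s, w, hro, hse, h1, h2⟩)
    · exact extreme_regular G hn hr
    · rcases Nat.lt_or_ge r n with hrn | hrn
      · exact extreme_near ho G hro hse h1 h2 hrn
      · -- then `w` is the only vertex
        have h3 : ∀ v, deg G v = s := by
          intro v
          by_cases hv : v = w
          · rw [hv, h1]
          · exfalso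
            have := deg_lt G v
            rw [h2 v hv] at this
            omega
        exact extreme_regular G hn h3

end Pool.Agent.Results.MP_1867d3_co.ConjugateHull
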